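import Pool.Agent.R349.SNFinal

/-!
# MP_d3d931_al, Q1

Every supernilpotent semigroup (respectively, monoid) is both left nilpotent and right nilpotent.

The definitions used for semigroups are in `Pool.Agent.R349.SNDefs`:
* `Mat m S` : matrices over `S` with rows indexed by `Fin m → Bool` and two columns;
* `gens α β`, `MM α β` : the generating matrices and the subsemigroup
  `M(α_1, …, α_m, β)` generated by them;
* `comm α β` : the higher commutator `[α_1, …, α_m, β]`, the least congruence satisfying the
  term condition for `MM α β`;
* `Supernilpotent S d`, `leftS S d = ⊥`, `rightS S d = ⊥` : `d`-supernilpotence, left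
  `d`-nilpotence and right `d`-nilpotence.

For monoids the same notions are defined below with the submonoid (i.e. the subalgebra in the
signature with the constant `1`) generated by the same matrices.
-/

namespace Pool.Agent.Results.MP_d3d931_al.SupernilpotentNilpotent

open Pool.Agent.R349.SN

/-- `comm α β` is really the least congruence satisfying the term condition. -/
theorem comm_isLeast {S : Type*} [Semigroup S] {m : ℕ} (α : Fin m → Con S) (β : Con S) :
    IsLeast {δ : Con S | TermCond (MM α β : Set (Mat m S)) δ} (comm α β) :=
  ⟨cen_comm α β, fun _ h => comm_le h⟩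

section monoid
variable {M : Type*} [Monoid M]

/-- `M(α_1, …, α_m, β)` in the signature of monoids. -/
def MMon {m : ℕ} (α : Fin m → Con M) (β : Con M) : Submonoid (Mat m M) :=
  Submonoid.closure (gens α β)

/-- The higher commutator `[α_1, …, α_m, β]` in the signature of monoids. -/
def commMon {m : ℕ} (α : Fin m → Con M) (β : Con M) : Con M :=
  sInf {δ | TermCond (MMon α β : Set (Mat m M)) δ}

/-- `d`-supernilpotence of a monoid. -/
def SupernilpotentMon (M : Type*) [Monoid M] (d : ℕ) : Prop :=
  commMon (M := M) (fun _ : Fin d => ⊤) ⊤ = ⊥

/-- `[1, [1, …, [1, 1] … ]]` with `d + 1` copies of the total congruence. -/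
def leftMon (M : Type*) [Monoid M] : ℕ → Con M
  | 0 => ⊤
  | d + 1 => commMon (fun _ : Fin 1 => ⊤) (leftMon M d)

/-- `[ … [[1, 1], 1], …, 1]` with `d + 1` copies of the total congruence. -/
def rightMon (M : Type*) [Monoid M] : ℕ → Con M
  | 0 => ⊤
  | d + 1 => commMon (fun _ : Fin 1 => rightMon M d) ⊤

theorem MMon_eq {m : ℕ} (α : Fin m → Con M) (β : Con M) :
    (MMon α β : Set (Mat m M)) = (MM α β : Set (Mat m M)) := by
  apply Set.Subset.antisymm
  · intro x hx
    replace hx : x ∈ Submonoid.closure (gens α β) := hx
    show x ∈ MM α β
    induction hx using Submonoid.closure_induction with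
    | mem x hx => exact Subsemigroup.subset_closure hx
    | one =>
      apply Subsemigroup.subset_closure
      right
      refine ⟨1, 1, β.refl 1, ?_⟩
      funext ε j
      split_ifs <;> rfl
    | mul x y _ _ ihx ihy => exact (MM α β).mul_mem ihx ihy
  · intro x hx
    replace hx : x ∈ Subsemigroup.closure (gens α β) := hx
    show x ∈ MMon α β
    induction hx using Subsemigroup.closure_induction with
    | mem x hx => exact Submonoid.subset_closure hx
    | mul x y _ _ ihx ihy => exact (MMon α β).mul_mem ihx ihy

theorem commMon_eq {m : ℕ} (α : Fin m → Con M) (β : Con M) : commMon α β = Pool.Agent.R349.SN.comm α β := by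
  unfold commMon Pool.Agent.R349.SN.comm Cen
  rw [MMon_eq]

theorem leftMon_eq (d : ℕ) : leftMon M d = leftS M d := by
  induction d with
  | zero => rfl
  | succ d ih => rw [leftMon, leftS, commMon_eq, ih]

theorem rightMon_eq (d : ℕ) : rightMon M d = rightS M d := by
  induction d with
  | zero => rfl
  | succ d ih => rw [rightMon, rightS, commMon_eq, ih]

end monoid

universe u

/-- **Q1 of MP_d3d931_al.** Every supernilpotent semigroup is left nilpotent and right nilpotent;
every supernilpotent monoid is left nilpotent and right nilpotent. -/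
theorem result :
    (∀ (S : Type u) [Semigroup S], (∃ d, Supernilpotent S d) →
      (∃ d, leftS S d = ⊥) ∧ (∃ d, rightS S d = ⊥)) ∧
    (∀ (M : Type u) [Monoid M], (∃ d, SupernilpotentMon M d) →
      (∃ d, leftMon M d = ⊥) ∧ (∃ d, rightMon M d = ⊥)) := by
  refine ⟨fun S _ h => main S h, fun M _ h => ?_⟩
  have h' : ∃ d, Supernilpotent M d := by
    obtain ⟨d, hd⟩ := h
    exact ⟨d, by rw [Supernilpotent, ← commMon_eq]; exact hd⟩
  simp only [leftMon_eq, rightMon_eq]
  exact main M h'

end Pool.Agent.Results.MP_d3d931_al.SupernilpotentNilpotent
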